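import Pool.Agent.N479.SR.Tri

set_option autoImplicit false

/-! # The gadget for the weights `1, r / 2, - r / 2` -/

namespace Pool.Agent.N479.SK

open Finset Pool.Agent.N479.ER

/-- the neutral state -/
def hN (x h k b : ℝ) : Fin 3 → Fin 6 → ℝ :=
  ![![x, x + h, x + h, x + k, x + b, x - b],
    ![x, x + b, x + h, x + k, x - b, x + h],
    ![x, x - b, x + h, x + k, x + b, x + h]]

/-- the active state -/
def hA (x h k b : ℝ) : Fin 3 → Fin 6 → ℝ :=
  ![![x, x + h + k, x + h, x, x + b, x - b],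
    ![x, x + h + k, x, x + b, x - b, x + h],
    ![x, x + h + k, x, x - b, x + b, x + h]]

/-- the weights -/
noncomputable def vw (r : ℝ) : Fin 3 → ℝ := ![1, r / 2, - (r / 2)]

lemma vw_sum (r : ℝ) : ∑ i, vw r i = 1 := by
  simp [vw, Fin.sum_univ_three]

lemma hgad_Z (r x h b : ℝ) (q : Fin 6) :
    ∑ i, vw r i * hA x h (r * b) b i q = ∑ i, vw r i * hN x h (r * b) b i q := by
  fin_cases q <;> simp [hA, hN, vw, Fin.sum_univ_three] <;> ring

lemma hN_law (x h k b : ℝ) (φ : ℝ → ℝ) (i : Fin 3) :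
    ∑ q, φ (hN x h k b i q) =
      φ x + 2 * φ (x + h) + φ (x + k) + φ (x + b) + φ (x - b) := by
  fin_cases i <;> simp [hN, Fin.sum_univ_six] <;> ring

lemma hA_law (x h k b : ℝ) (φ : ℝ → ℝ) (i : Fin 3) :
    ∑ q, φ (hA x h k b i q) =
      φ x + 2 * φ (x + h) + φ (x + k) + φ (x + b) + φ (x - b)
        + (φ (x + h + k) - φ (x + h) - φ (x + k) + φ x) := by
  fin_cases i <;> simp [hA, Fin.sum_univ_six] <;> ring

/-- the metric of the neutral state -/
def hm (h b : ℝ) : Fin 3 → Fin 3 → ℝ :=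
  ![![0, 6 * b ^ 2 + 2 * h ^ 2, 2 * (h + b) ^ 2],
    ![6 * b ^ 2 + 2 * h ^ 2, 0, 8 * b ^ 2],
    ![2 * (h + b) ^ 2, 8 * b ^ 2, 0]]

/-- the difference of the metrics of the two states -/
def hd : Fin 3 → Fin 3 → ℝ := ![![0, 1, -1], ![1, 0, 0], ![-1, 0, 0]]

lemma hN_m (x h k b : ℝ) (i j : Fin 3) :
    ∑ q, (hN x h k b i q - hN x h k b j q) ^ 2 = hm h b i j := by
  fin_cases i <;> fin_cases j <;> simp [hN, Fin.sum_univ_six, hm] <;> ring

lemma hA_m (x h k b : ℝ) (i j : Fin 3) :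
    ∑ q, (hA x h k b i q - hA x h k b j q) ^ 2 = hm h b i j + hd i j * (2 * h * b) := by
  fin_cases i <;> fin_cases j <;> simp [hA, Fin.sum_univ_six, hm, hd] <;> ring

lemma hm_nonneg (h b : ℝ) (i j : Fin 3) : 0 ≤ hm h b i j := by
  fin_cases i <;> fin_cases j <;> simp [hm] <;> positivity

lemma hm_le (h b : ℝ) (i j : Fin 3) : hm h b i j ≤ 8 * (h ^ 2 + b ^ 2) := by
  fin_cases i <;> fin_cases j <;> simp [hm] <;>
    nlinarith [sq_nonneg (h - b), sq_nonneg (h + b), sq_nonneg h, sq_nonneg b]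

lemma hd_le (i j : Fin 3) : |hd i j| ≤ 1 := by
  fin_cases i <;> fin_cases j <;> simp [hd]

/-! ### the assembled rows -/

section asm

variable {Y J U : Type} [Fintype J] [Fintype U] [DecidableEq Y]

/-- the rows -/
def hrow (r : ℝ) (z : Y → J → ℝ) (ow : U → Y) (x h b : U → ℝ) (p : Y × Fin 3) :
    (J × Bool) ⊕ (U × Fin 6) → ℝ :=
  Sum.elim (fun s => if s.2 then z p.1 s.1 else - z p.1 s.1)
    (fun s => if ow s.1 = p.1 then hA (x s.1) (h s.1) (r * b s.1) (b s.1) p.2 s.2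
      else hN (x s.1) (h s.1) (r * b s.1) (b s.1) p.2 s.2)

lemma hrow_law (r : ℝ) (z : Y → J → ℝ) (ow : U → Y) (x h b : U → ℝ) (φ : ℝ → ℝ) (p : Y)
    (i : Fin 3) : ∑ ω, φ (hrow r z ow x h b (p, i) ω) =
      ∑ j, (φ (z p j) + φ (- z p j)) +
      (∑ u, (φ (x u) + 2 * φ (x u + h u) + φ (x u + r * b u) + φ (x u + b u) + φ (x u - b u))
       + ∑ u, (if ow u = p then (φ (x u + h u + r * b u) - φ (x u + h u) - φ (x u + r * b u)
          + φ (x u)) else 0)) := by
  rw [Fintype.sum_sum_type, Fintype.sum_prod_type, Fintype.sum_prod_type]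
  congr 1
  · refine Finset.sum_congr rfl fun j _ => ?_
    simp [hrow]
  · rw [← Finset.sum_add_distrib]
    refine Finset.sum_congr rfl fun u _ => ?_
    simp only [hrow, Sum.elim_inr]
    split_ifs with hu
    · rw [hA_law]
    · rw [hN_law, add_zero]

lemma hrow_m (r : ℝ) (z : Y → J → ℝ) (ow : U → Y) (x h b : U → ℝ) (p : Y) (i j : Fin 3) :
    sq (hrow r z ow x h b (p, i)) (hrow r z ow x h b (p, j)) = ∑ u, hm (h u) (b u) i j +
      hd i j * ∑ u, (if ow u = p then 2 * h u * b u else 0) := by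
  unfold ER.sq
  rw [Fintype.sum_sum_type, Fintype.sum_prod_type, Fintype.sum_prod_type]
  have h1 : ∀ t : J, ∑ e : Bool, (hrow r z ow x h b (p, i) (Sum.inl (t, e))
      - hrow r z ow x h b (p, j) (Sum.inl (t, e))) ^ 2 = 0 := fun t => by simp [hrow]
  rw [Finset.sum_congr rfl fun t _ => h1 t, Finset.sum_const_zero, zero_add, Finset.mul_sum,
    ← Finset.sum_add_distrib]
  refine Finset.sum_congr rfl fun u _ => ?_
  simp only [hrow, Sum.elim_inr]
  split_ifs with hu
  · exact hA_m _ _ _ _ i j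
  · rw [mul_zero, add_zero]
    exact hN_m _ _ _ _ i j

lemma hrow_Z (r : ℝ) (z : Y → J → ℝ) (ow : U → Y) (x h b : U → ℝ) (p p' : Y) :
    sq (comb (vw r) fun i => hrow r z ow x h b (p, i))
      (comb (vw r) fun i => hrow r z ow x h b (p', i)) = 2 * ∑ j, (z p j - z p' j) ^ 2 := by
  unfold ER.sq
  rw [Fintype.sum_sum_type, Fintype.sum_prod_type, Fintype.sum_prod_type]
  have h2 : ∀ (u : U) (q : Fin 6), (comb (vw r) (fun i => hrow r z ow x h b (p, i))
      (Sum.inr (u, q)) - comb (vw r) (fun i => hrow r z ow x h b (p', i))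
      (Sum.inr (u, q))) ^ 2 = 0 := by
    intro u q
    have key : ∀ p, comb (vw r) (fun i => hrow r z ow x h b (p, i)) (Sum.inr (u, q)) =
        ∑ i, vw r i * hN (x u) (h u) (r * b u) (b u) i q := by
      intro p
      simp only [comb, hrow, Sum.elim_inr]
      split_ifs with hu
      · exact hgad_Z r _ _ _ q
      · rfl
    rw [key, key, sub_self]
    norm_num
  rw [Finset.sum_congr rfl fun u _ => Finset.sum_congr rfl fun q _ => h2 u q]
  simp only [Finset.sum_const_zero, add_zero]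
  rw [Finset.mul_sum]
  refine Finset.sum_congr rfl fun j _ => ?_
  have h3 : ∀ (p : Y) (e : Bool), comb (vw r) (fun i => hrow r z ow x h b (p, i))
      (Sum.inl (j, e)) = if e then z p j else - z p j := by
    intro p e
    simp only [comb, hrow, Sum.elim_inl]
    rw [← Finset.sum_mul, vw_sum, one_mul]
  simp only [h3, Fintype.sum_bool, if_true, Bool.false_eq_true, if_false]
  ring

end asm

end Pool.Agent.N479.SK
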