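import Pool.Agent.N479.SK.Good
import Pool.Agent.N479.ER.Line

set_option autoImplicit false

/-! # Simplices are found monochromatic on spheres about the origin -/

namespace Pool.Agent.N479.SK

open Finset Pool.Agent.N479.ER

theorem GoodE.sum {B T : Type} (s : Finset T) {D : T → B → B → ℝ} (h : ∀ i ∈ s, GoodE (D i)) :
    GoodE (fun b b' => ∑ i ∈ s, D i b b') := by
  classical
  induction s using Finset.induction_on with
  | empty => simpa using GoodE.zero
  | insert a s ha ih =>
    refine (GoodE.add (h a (Finset.mem_insert_self _ _))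
      (ih fun i hi => h i (Finset.mem_insert_of_mem hi))).congr fun b b' => ?_
    rw [Finset.sum_insert ha]

theorem GoodE.good {B : Type} {D : B → B → ℝ} (h : GoodE D) : Good D := by
  intro κ _
  obtain ⟨ι, i, W, H⟩ := h κ
  refine ⟨ι, i, W, fun c => ?_⟩
  obtain ⟨f, m, d, -, e⟩ := H c
  exact ⟨f, m, d, e⟩

/-- pulling back -/
theorem GoodE.comap {B C : Type} {D : C → C → ℝ} (h : GoodE D) (g : B → C) :
    GoodE (fun b b' => D (g b) (g b')) := by
  intro κ _
  obtain ⟨ι, i, W, H⟩ := h κ
  refine ⟨ι, i, W, fun c => ?_⟩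
  obtain ⟨f, m, d, n, e⟩ := H c
  exact ⟨fun b => f (g b), fun b => m _, fun b b' => d _ _, fun b b' => n _ _, fun b b' => e _ _⟩

/-- nearly regular simplices are products of cuts -/
theorem near_goodE {B : Type} [Fintype B] [DecidableEq B] (R : B → B → ℝ) (g η : ℝ)
    (h0 : ∀ b, R b b = 0) (hs : ∀ b b', R b b' = R b' b)
    (hη : 0 ≤ η) (hR : ∀ b b', b ≠ b' → |R b b' - 2 * g| ≤ 2 * η)
    (hg : 2 * η * Fintype.card B ≤ g) : GoodE R := by
  -- weights of the pair cuts
  let w : B → B → ℝ := fun i j => if i = j then 0 else (g + η - R i j / 2) / 2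
  have wnn : ∀ i j, 0 ≤ w i j := by
    intro i j
    by_cases hij : i = j
    · simp [w, hij]
    · have := abs_le.mp (hR i j hij)
      simp only [w, hij, if_false]
      linarith [this.2]
  have wle : ∀ i j, w i j ≤ η := by
    intro i j
    by_cases hij : i = j
    · simp [w, hij, hη]
    · have := abs_le.mp (hR i j hij)
      simp only [w, hij, if_false]
      linarith [this.1]
  have wsymm : ∀ i j, w i j = w j i := by
    intro i j
    by_cases hij : i = j
    · subst hij; rfl
    · simp only [w, hij, Ne.symm hij, if_false, hs i j]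
  let bb : B → ℝ := fun i => ∑ j, w i j
  have hbb : ∀ i, 2 * bb i ≤ g + η := by
    intro i
    have : bb i ≤ ∑ j : B, η := Finset.sum_le_sum fun j _ => wle i j
    rw [Finset.sum_const, Finset.card_univ, nsmul_eq_mul] at this
    nlinarith
  have G1 : GoodE (fun p q : B => ∑ x : B × B, if ((p = x.1 ∨ p = x.2) ↔ (q = x.1 ∨ q = x.2)) then 0
      else w x.1 x.2) :=
    GoodE.sum _ fun x _ => GoodE.cut (fun p : B => p = x.1 ∨ p = x.2) (wnn x.1 x.2)
  have G2 : GoodE (fun p q : B => ∑ x : B, if ((p = x) ↔ (q = x)) then 0 else (g + η - 2 * bb x)) :=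
    GoodE.sum _ fun x _ => GoodE.cut (fun p : B => p = x) (by linarith [hbb x])
  refine (G1.add G2).congr fun p q => ?_
  by_cases hpq : p = q
  · subst hpq
    simp [h0]
  · have e1 : ∀ x : B × B, (if ((p = x.1 ∨ p = x.2) ↔ (q = x.1 ∨ q = x.2)) then 0 else w x.1 x.2)
        = (if x.1 = p then w x.1 x.2 else 0) + (if x.2 = p then w x.1 x.2 else 0)
          + (if x.1 = q then w x.1 x.2 else 0) + (if x.2 = q then w x.1 x.2 else 0)
          - 2 * (if x.1 = p then (if x.2 = q then w x.1 x.2 else 0) else 0)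
          - 2 * (if x.1 = q then (if x.2 = p then w x.1 x.2 else 0) else 0) := by
      rintro ⟨i, j⟩
      simp only
      by_cases hij : i = j
      · subst hij
        have : w i i = 0 := by simp [w]
        simp [this]
      · by_cases a1 : i = p
        · subst a1
          have n1 : i ≠ q := hpq
          have n2 : j ≠ i := fun h => hij h.symm
          by_cases a2 : j = q
          · subst a2
            simp [n1, n2]
            ring
          · have n3 : q ≠ i := fun h => n1 h.symm
            have n4 : q ≠ j := fun h => a2 h.symm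
            simp [n1, n2, n3, n4, a2]
        · have n1 : p ≠ i := fun h => a1 h.symm
          by_cases a2 : i = q
          · subst a2
            have n2 : j ≠ i := fun h => hij h.symm
            by_cases a3 : j = p
            · subst a3
              simp [n1, hij]
              ring
            · have n3 : p ≠ j := fun h => a3 h.symm
              simp [a1, n1, n2, n3, a3]
          · have n2 : q ≠ i := fun h => a2 h.symm
            by_cases a3 : j = p
            · subst a3
              have n3 : j ≠ q := hpq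
              have n4 : q ≠ j := fun h => n3 h.symm
              simp [a1, a2, n2, n3, n4]
            · have n3 : p ≠ j := fun h => a3 h.symm
              by_cases a4 : j = q
              · subst a4
                simp [a1, a2, n1, a3, n3]
              · have n4 : q ≠ j := fun h => a4 h.symm
                simp [a1, a2, n1, n2, a3, n3, a4, n4]
    have e2 : ∀ x : B, (if ((p = x) ↔ (q = x)) then 0 else (g + η - 2 * bb x))
        = (if x = p then (g + η - 2 * bb x) else 0) + (if x = q then (g + η - 2 * bb x) else 0) := by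
      intro x
      by_cases a1 : x = p
      · subst a1
        have n3 : q ≠ x := fun h => hpq h.symm
        simp [hpq, n3]
      · have n1 : p ≠ x := fun h => a1 h.symm
        by_cases a2 : x = q
        · subst a2
          simp [a1, n1]
        · have n2 : q ≠ x := fun h => a2 h.symm
          simp [a1, n1, a2, n2]
    rw [Finset.sum_congr rfl fun x _ => e1 x, Finset.sum_congr rfl fun x _ => e2 x]
    simp only [Finset.sum_sub_distrib, Finset.sum_add_distrib, ← Finset.mul_sum,
      Fintype.sum_prod_type]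
    simp only [Finset.sum_ite_eq', Finset.mem_univ, if_true, Finset.sum_ite_irrel,
      Finset.sum_const_zero]
    have s1 : ∀ i, ∑ x, w x i = bb i := fun i => Finset.sum_congr rfl fun x _ => wsymm x i
    have s2 : ∀ i, ∑ x, w i x = bb i := fun i => rfl
    simp only [s1, s2]
    have s3 : w p q = (g + η - R p q / 2) / 2 := by simp [w, hpq]
    rw [wsymm q p, s3]
    ring

/-- the windows of a long word -/
theorem TT_goodE {B : Type} [Finite B] (τ : B → ℕ) (M n : ℕ) (hτ : ∀ b, τ b + (2 * M + 1) ≤ n) :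
    GoodE (fun b b' => TT M n (τ b) (τ b')) := by
  have key : ∀ (φ : ℝ → ℝ) (s : ℕ), s + (2 * M + 1) ≤ n →
      ∑ j : Fin n, φ (tri M (((j : ℕ) : ℤ) - s - M)) =
        n * φ 0 + ∑ i ∈ range (2 * M + 1), (φ (tri M ((i : ℤ) - M)) - φ 0) := by
    intro φ s hs
    rw [Fin.sum_univ_eq_sum_range (fun j => φ (tri M ((j : ℤ) - s - M)))]
    have h1 : ∀ j ∈ range n, φ (tri M ((j : ℤ) - s - M)) = φ 0 +
        (if j ∈ Ico s (s + (2 * M + 1)) then (φ (tri M ((j : ℤ) - s - M)) - φ 0) else 0) := by
      intro j _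
      split_ifs with hj
      · ring
      · rw [Finset.mem_Ico, not_and_or, not_le, not_lt] at hj
        rw [tri_eq_zero, add_zero]
        rcases hj with hj | hj
        · rw [abs_of_nonpos (by omega)]
          omega
        · rw [abs_of_nonneg (by omega)]
          omega
    rw [Finset.sum_congr rfl h1, Finset.sum_add_distrib, Finset.sum_const, Finset.card_range,
      nsmul_eq_mul, Finset.sum_ite_mem]
    congr 1
    have h2 : range n ∩ Ico s (s + (2 * M + 1)) = Ico s (s + (2 * M + 1)) := by
      apply Finset.inter_eq_right.mpr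
      intro j hj
      rw [Finset.mem_Ico] at hj
      rw [Finset.mem_range]
      omega
    rw [h2, Finset.sum_Ico_eq_sum_range, Nat.add_sub_cancel_left]
    refine Finset.sum_congr rfl fun i _ => ?_
    push_cast
    rw [show (s : ℤ) + i - s - M = i - M by ring]
  have h := GoodE.words (fun (b : B) (j : Fin n) => tri M (((j : ℕ) : ℤ) - τ b - M))
    (fun φ b b' => by rw [key φ _ (hτ b), key φ _ (hτ b')])
  refine h.congr fun b b' => ?_
  unfold TT
  rw [Finset.sum_range fun j => (tri M ((j : ℤ) - τ b - M) - tri M ((j : ℤ) - τ b' - M)) ^ 2]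

theorem line_natE {B : Type} [Finite B] (τ : B → ℕ) (ε : ℝ) (hε : 0 < ε) :
    ∃ L : B → B → ℝ, GoodE L ∧ ∀ b b', |L b b' - ((τ b : ℝ) - τ b') ^ 2| ≤ ε := by
  classical
  have := Fintype.ofFinite B
  obtain ⟨S, hS⟩ : ∃ S : ℕ, ∀ b, τ b ≤ S := ⟨univ.sup τ, fun b => Finset.le_sup (Finset.mem_univ b)⟩
  obtain ⟨M₀, hM₀⟩ := exists_nat_gt ((S : ℝ) ^ 3 / ε)
  let M := M₀ + S + 1
  have hMS : S ≤ M := by omega
  have hM1 : (0 : ℝ) < M := by simp only [M]; push_cast; positivity
  have hM2 : (S : ℝ) ^ 3 ≤ ε * M := by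
    have h1 : (S : ℝ) ^ 3 < M₀ * ε := (div_lt_iff₀ hε).mp hM₀
    have h2 : (M₀ : ℝ) ≤ M := by exact_mod_cast (by omega : M₀ ≤ M)
    nlinarith
  have G := TT_goodE τ M (S + (2 * M + 1)) (fun b => by have := hS b; omega)
  refine ⟨_, G.smul (t := 1 / (2 * M)) (by positivity), ?_⟩
  have key : ∀ s s' : ℕ, s ≤ s' → s' ≤ S →
      |1 / (2 * M) * TT M (S + (2 * M + 1)) s s' - ((s' : ℝ) - s) ^ 2| ≤ ε := by
    intro s s' h h'
    have u := TT_upper M (S + (2 * M + 1)) s s' h
    have l := TT_lower M (S + (2 * M + 1)) s s' h (by omega) (by omega)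
    set T := TT M (S + (2 * M + 1)) s s'
    have t0 : (0 : ℝ) ≤ (s' : ℝ) - s := by
      have : (s : ℝ) ≤ s' := by exact_mod_cast h
      linarith
    have t1 : (s' : ℝ) - s ≤ S := by
      have h1 : (s' : ℝ) ≤ S := by exact_mod_cast h'
      have h2 : (0 : ℝ) ≤ s := by positivity
      linarith
    have t3 : ((s' : ℝ) - s) ^ 3 ≤ ε * M := (pow_le_pow_left₀ t0 t1 3).trans hM2
    set t := (s' : ℝ) - s
    rw [abs_le]
    have e : 1 / (2 * (M : ℝ)) * T - t ^ 2 = (T - 2 * M * t ^ 2) / (2 * M) := by
      field_simp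
    rw [e, le_div_iff₀ (by positivity), div_le_iff₀ (by positivity)]
    constructor
    · nlinarith
    · nlinarith
  intro b b'
  rcases le_total (τ b) (τ b') with h | h
  · have := key _ _ h (hS b')
    rw [show ((τ b : ℝ) - τ b') ^ 2 = ((τ b' : ℝ) - τ b) ^ 2 by ring]
    exact this
  · have := key _ _ h (hS b)
    rw [TT_comm]
    exact this

theorem line_realE {B : Type} [Finite B] (t : B → ℝ) (ε : ℝ) (hε : 0 < ε) :
    ∃ L : B → B → ℝ, GoodE L ∧ ∀ b b', |L b b' - (t b - t b') ^ 2| ≤ ε := by
  classical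
  have := Fintype.ofFinite B
  obtain ⟨R, hR⟩ : ∃ R : ℝ, ∀ b, 0 ≤ t b + R := by
    rcases isEmpty_or_nonempty B with hB | hB
    · exact ⟨0, fun b => (hB.false b).elim⟩
    · obtain ⟨b₀, h₀⟩ := Finite.exists_min t
      exact ⟨- t b₀, fun b => by linarith [h₀ b]⟩
  have lim : ∀ b b', Filter.Tendsto
      (fun n : ℕ => ((⌊(t b + R) * (n : ℝ)⌋₊ : ℝ) / n - (⌊(t b' + R) * (n : ℝ)⌋₊ : ℝ) / n) ^ 2)
      Filter.atTop (nhds ((t b - t b') ^ 2)) := by
    intro b b'
    have h1 := (tendsto_nat_floor_mul_div_atTop (hR b)).comp (tendsto_natCast_atTop_atTop (R := ℝ))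
    have h2 := (tendsto_nat_floor_mul_div_atTop (hR b')).comp (tendsto_natCast_atTop_atTop (R := ℝ))
    have h3 := (h1.sub h2).pow 2
    rw [show t b + R - (t b' + R) = t b - t b' by ring] at h3
    exact h3
  have ev : ∀ᶠ n : ℕ in Filter.atTop, ∀ b b',
      |((⌊(t b + R) * (n : ℝ)⌋₊ : ℝ) / n - (⌊(t b' + R) * (n : ℝ)⌋₊ : ℝ) / n) ^ 2
        - (t b - t b') ^ 2| < ε / 2 := by
    rw [Filter.eventually_all]
    intro b
    rw [Filter.eventually_all]
    intro b'
    have := (Metric.tendsto_nhds.mp (lim b b')) (ε / 2) (by positivity)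
    simpa [Real.dist_eq] using this
  obtain ⟨n, hn, hn0⟩ := (ev.and (Filter.eventually_gt_atTop 0)).exists
  have hn1 : (0 : ℝ) < n := by exact_mod_cast hn0
  obtain ⟨L, gL, hL⟩ := line_natE (fun b => ⌊(t b + R) * (n : ℝ)⌋₊) (ε / 2 * n ^ 2) (by positivity)
  refine ⟨_, gL.smul (t := 1 / (n : ℝ) ^ 2) (by positivity), fun b b' => ?_⟩
  have h1 := hL b b'
  have h2 := hn b b'
  set p := (⌊(t b + R) * (n : ℝ)⌋₊ : ℝ)
  set q := (⌊(t b' + R) * (n : ℝ)⌋₊ : ℝ)
  have e : 1 / (n : ℝ) ^ 2 * L b b' - (t b - t b') ^ 2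
      = (L b b' - (p - q) ^ 2) / n ^ 2 + ((p / n - q / n) ^ 2 - (t b - t b') ^ 2) := by
    field_simp
    ring
  rw [e]
  have h3 : |(L b b' - (p - q) ^ 2) / (n : ℝ) ^ 2| ≤ ε / 2 := by
    rw [abs_div, abs_of_pos (by positivity : (0 : ℝ) < (n : ℝ) ^ 2), div_le_iff₀ (by positivity)]
    exact h1
  have h4 := abs_add_le ((L b b' - (p - q) ^ 2) / (n : ℝ) ^ 2)
    ((p / n - q / n) ^ 2 - (t b - t b') ^ 2)
  linarith

/-- simplices are found monochromatic (Frankl and Rödl): a finite family, lifted in new pairwise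
orthogonal directions -/
theorem simplex_goodE {B ι : Type} [Finite B] [DecidableEq B] [Fintype ι] (w : B → ι → ℝ) (g : ℝ)
    (hg : 0 < g) : GoodE (fun b b' => if b = b' then 0 else sq (w b) (w b') + 2 * g) := by
  classical
  have := Fintype.ofFinite B
  -- accuracy
  obtain ⟨η, hη, hη2⟩ : ∃ η : ℝ, 0 < η ∧ 2 * η * Fintype.card B ≤ g := by
    refine ⟨g / (2 * (Fintype.card B + 1)), by positivity, ?_⟩
    have h1 : (0 : ℝ) < (Fintype.card B : ℝ) + 1 := by positivity
    rw [show 2 * (g / (2 * ((Fintype.card B : ℝ) + 1))) * (Fintype.card B : ℝ)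
      = g * ((Fintype.card B : ℝ) / ((Fintype.card B : ℝ) + 1)) by field_simp]
    have h2 : (Fintype.card B : ℝ) / ((Fintype.card B : ℝ) + 1) ≤ 1 := by
      rw [div_le_one h1]; linarith
    nlinarith
  choose L gL hL using fun x : ι => line_realE (fun b => w b x)
    (2 * η / (Fintype.card ι + 1)) (by positivity)
  -- symmetrise
  have gS := GoodE.sum (univ : Finset ι) fun x _ => gL x
  have hS : ∀ b b', |(∑ x, L x b b') - sq (w b) (w b')| ≤ 2 * η := by
    intro b b'
    unfold ER.sq
    rw [← Finset.sum_sub_distrib]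
    refine (Finset.abs_sum_le_sum_abs _ _).trans ?_
    refine (Finset.sum_le_sum fun x _ => hL x b b').trans ?_
    rw [Finset.sum_const, Finset.card_univ, nsmul_eq_mul]
    have h1 : (0 : ℝ) < (Fintype.card ι : ℝ) + 1 := by positivity
    rw [mul_div_assoc', div_le_iff₀ h1]
    nlinarith
  have sS : ∀ b b', ∑ x, L x b b' = ∑ x, L x b' b := gS.good.symm
  have dS : ∀ b, ∑ x, L x b b = 0 := gS.good.diag
  have gR := near_goodE (fun b b' => if b = b' then 0 else
      sq (w b) (w b') + 2 * g - ∑ x, L x b b') g η (by simp)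
    (fun b b' => by
      by_cases h : b = b'
      · subst h; rfl
      · simp only [h, Ne.symm h, if_false, sq_comm (w b) (w b'), sS b b'])
    hη.le
    (fun b b' h => by
      simp only [h, if_false]
      rw [show sq (w b) (w b') + 2 * g - ∑ x, L x b b' - 2 * g
        = -((∑ x, L x b b') - sq (w b) (w b')) by ring, abs_neg]
      exact hS b b') hη2
  refine (gS.add gR).congr fun b b' => ?_
  by_cases h : b = b'
  · subst h; simp [dS]
  · simp [h]

end Pool.Agent.N479.SK
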