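import Pool.Agent.N479.SK.Main
import Pool.Agent.N479.SR.Words

set_option autoImplicit false

/-! # A configuration together with a combination of its points: induction on the colours -/

namespace Pool.Agent.N479.SK

open Finset Pool.Agent.N479.ER

/-- `D` is realized over every finite spherical set -/
def Over {I : Type} [Fintype I] (w : I → ℝ) (Δ : I → I → ℝ) : Prop :=
  ∀ (ι Y : Type) [Fintype ι] [Nonempty ι] [Finite Y] [Nonempty Y] (y : Y → ι → ℝ) (R : ℝ),
    (∀ p, ∑ i, y p i ^ 2 = R) →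
    ∃ D : Y × I → Y × I → ℝ, GoodE D ∧ (∀ p i j, D (p, i) (p, j) = Δ i j) ∧
      ∀ p p', ∑ i, ∑ j, w i * w j * D (p, i) (p', j) = sq (y p) (y p')

theorem mainG {κ : Type} [Finite κ] [Nonempty κ] {I : Type} [Fintype I] [Nonempty I] (w : I → ℝ)
    (hw : ∑ i, w i = 1) (Δ : I → I → ℝ) (h0 : qf w Δ = 0) (hO : Over w Δ) (m : ℕ) :
    ∃ (ι : Type) (_ : Fintype ι) (_ : Nonempty ι) (W : Finset (ι → ℝ)) (R : ℝ),
      W.Nonempty ∧ (∀ v ∈ W, sq v 0 = R) ∧
      ∀ c : (ι → ℝ) → κ, (c '' (W : Set (ι → ℝ))).ncard ≤ m →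
        ∃ f : I → ι → ℝ, (∀ i, f i ∈ W) ∧ comb w f ∈ W ∧
          (∀ i j, sq (f i) (f j) = Δ i j) ∧ ∀ i, c (f i) = c (comb w f) := by
  classical
  induction m with
  | zero =>
    refine ⟨Unit, inferInstance, inferInstance, {0}, 0, Finset.singleton_nonempty _, ?_, ?_⟩
    · intro w hw
      rw [Finset.mem_singleton.mp hw, sq_self]
    · intro c hc
      exfalso
      rw [Finset.coe_singleton, Set.image_singleton, Set.ncard_singleton] at hc
      omega
  | succ m ih =>
    obtain ⟨ι₀, i₀, n₀, W₀, R₀, hW₀, hR₀, H₀⟩ := ih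
    have hY : Nonempty ↥W₀ := hW₀.to_subtype
    obtain ⟨D, hD, hD1, hD2⟩ := hO ι₀ ↥W₀ (fun p : ↥W₀ => (p : ι₀ → ℝ)) R₀
      (fun p => by
        have := hR₀ p p.2
        simpa [ER.sq] using this)
    obtain ⟨ι₁, i₁, n₁, W₁, R₁, hR₁, H₁⟩ := hD.sphere κ
    let q : (↥W₀ × I → ι₁ → ℝ) → ↥W₀ → ι₁ → ℝ := fun f p => comb w fun i => f (p, i)
    let Ok : (↥W₀ × I → ↥W₁) → Prop := fun f => ∀ p i j,
      sq (f (p, i) : ι₁ → ℝ) (f (p, j)) = Δ i j
    let W : Finset (ι₁ → ℝ) := W₁ ∪ (Finset.univ.filter Ok).biUnion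
      (fun f => Finset.univ.image (q fun b => (f b : ι₁ → ℝ)))
    obtain ⟨p₀⟩ := hY
    obtain ⟨k₀⟩ := ‹Nonempty I›
    refine ⟨ι₁, i₁, n₁, W, R₁, ?_, ?_, fun c hc => ?_⟩
    · obtain ⟨f, mf, -, -⟩ := H₁ (fun _ => Classical.arbitrary κ)
      exact ⟨f (p₀, k₀), Finset.mem_union_left _ (mf _)⟩
    · intro v hv
      rcases Finset.mem_union.mp hv with h | h
      · exact hR₁ v h
      · obtain ⟨f, hf, h⟩ := Finset.mem_biUnion.mp h
        obtain ⟨p, -, rfl⟩ := Finset.mem_image.mp h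
        have h1 := (Finset.mem_filter.mp hf).2 p
        simp only [q]
        rw [sq_comb_pt w hw]
        simp only [h1]
        rw [h0, mul_zero, sub_zero, Finset.sum_congr rfl fun i _ => by rw [hR₁ _ (f (p, i)).2],
          ← Finset.sum_mul, hw, one_mul]
    · obtain ⟨f, mf, df, cf⟩ := H₁ c
      have hOk : Ok (fun b => ⟨f b, mf b⟩) := fun p i j => (df _ _).trans (hD1 p i j)
      have hqW : ∀ p, q f p ∈ W := by
        intro p
        refine Finset.mem_union_right _ (Finset.mem_biUnion.mpr ⟨fun b => ⟨f b, mf b⟩,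
          Finset.mem_filter.mpr ⟨Finset.mem_univ _, hOk⟩, ?_⟩)
        exact Finset.mem_image_of_mem _ (Finset.mem_univ p)
      have hfW : ∀ b, f b ∈ W := fun b => Finset.mem_union_left _ (mf b)
      have hq2 : ∀ p p', sq (q f p) (q f p') = sq (p : ι₀ → ℝ) p' := by
        intro p p'
        rw [← hD2 p p']
        simp only [q]
        rw [sq_comb_comb w hw]
        simp only [df, hD1, h0]
        ring
      set s := c (f (p₀, k₀)) with hs
      have hcf : ∀ b, c (f b) = s := fun b => cf b _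
      by_cases hex : ∃ p, c (q f p) = s
      · obtain ⟨p, hp⟩ := hex
        refine ⟨fun i => f (p, i), fun i => hfW _, hqW p, fun i j => hOk p i j, fun i => ?_⟩
        rw [hcf]
        exact hp.symm
      · push Not at hex
        let c₀ : (ι₀ → ℝ) → κ := fun v => if h : v ∈ W₀ then c (q f ⟨v, h⟩) else s
        have hc₀ : ∀ p : ↥W₀, c₀ p = c (q f p) := by
          intro p
          simp only [c₀]
          rw [dif_pos p.2]
        have hsub : c₀ '' (W₀ : Set (ι₀ → ℝ)) ⊆ (c '' (W : Set (ι₁ → ℝ))) \ {s} := by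
          rintro _ ⟨v, hv, rfl⟩
          rw [hc₀ ⟨v, hv⟩]
          exact ⟨⟨_, hqW _, rfl⟩, hex _⟩
        have hsW : s ∈ c '' (W : Set (ι₁ → ℝ)) := ⟨_, hfW (p₀, k₀), rfl⟩
        have hcard : (c₀ '' (W₀ : Set (ι₀ → ℝ))).ncard ≤ m := by
          refine (Set.ncard_le_ncard hsub (Set.toFinite _)).trans ?_
          have h1 := Set.ncard_sdiff_singleton_add_one (s := c '' (W : Set (ι₁ → ℝ))) (a := s)
            hsW (Set.toFinite _)
          omega
        obtain ⟨g, mg, mg', g1, cg⟩ := H₀ c₀ hcard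
        have e : comb w (fun i => q f ⟨g i, mg i⟩) = q f ⟨comb w g, mg'⟩ := by
          apply eq_of_sq
          rw [sq_comb_pt w hw]
          simp only [hq2]
          rw [← sq_comb_pt w hw, sq_self]
        refine ⟨fun i => q f ⟨g i, mg i⟩, fun i => hqW _, ?_, ?_, fun i => ?_⟩
        · rw [e]
          exact hqW _
        · intro i j
          rw [hq2]
          exact g1 i j
        · have h1 := cg i
          rw [hc₀ ⟨g i, mg i⟩, hc₀ ⟨comb w g, mg'⟩] at h1
          rw [e]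
          exact h1

/-- the palette version -/
theorem mainP {κ : Type} [Finite κ] [Nonempty κ] {I : Type} [Fintype I] [Nonempty I] (w : I → ℝ)
    (hw : ∑ i, w i = 1) (Δ : I → I → ℝ) (h0 : qf w Δ = 0) (hO : Over w Δ) :
    ∃ (ι : Type) (_ : Fintype ι), ∀ c : (ι → ℝ) → κ, ∃ f : I → ι → ℝ,
      (∀ i j, sq (f i) (f j) = Δ i j) ∧ ∀ i, c (f i) = c (comb w f) := by
  obtain ⟨ι, i, n, W, R, -, -, H⟩ := mainG (κ := κ) w hw Δ h0 hO (Nat.card κ)
  refine ⟨ι, i, fun c => ?_⟩
  obtain ⟨f, -, -, e, hc⟩ := H c (by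
    refine (Set.ncard_le_ncard (Set.subset_univ _) (Set.toFinite _)).trans ?_
    rw [Set.ncard_univ])
  exact ⟨f, e, hc⟩

/-- the criterion: the weights are carried to `1, r / 2, - r / 2` by `π`, and small perturbations
of `Δ` along `π` stay good -/
theorem over_of {I : Type} [Fintype I] (w : I → ℝ) (Δ : I → I → ℝ) (h0 : qf w Δ = 0)
    (π : I → Fin 3) (r : ℝ) (hr : r ≠ 0)
    (hπ : ∀ a : Fin 3, ∑ i, (if π i = a then w i else 0) = vw r a) (μ : ℝ) (hμ : 0 < μ)
    (hst : ∀ E : Fin 3 → Fin 3 → ℝ, (∀ i j, |E i j| ≤ μ) → (∀ i, E i i = 0) →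
      (∀ i j, E i j = E j i) → GoodE (fun i j => Δ i j - E (π i) (π j))) : Over w Δ := by
  classical
  intro ι Y _ _ _ _ y R hR
  obtain ⟨G, E, hG, hE, hGE, hZ⟩ := words3 y R hR r hr μ hμ
  obtain ⟨p₀⟩ := ‹Nonempty Y›
  have hE0 : ∀ i, E i i = 0 := fun i => by rw [← hGE p₀]; exact hG.good.diag _
  have hEs : ∀ i j, E i j = E j i := fun i j => by
    rw [← hGE p₀, ← hGE p₀]; exact hG.good.symm _ _
  have hpush : ∀ K : Fin 3 → Fin 3 → ℝ, ∑ i, ∑ j, w i * w j * K (π i) (π j) =
      ∑ a, ∑ b, vw r a * vw r b * K a b := by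
    intro K
    have h1 : ∀ (f : Fin 3 → ℝ), ∑ i, w i * f (π i) = ∑ a, vw r a * f a := by
      intro f
      have h2 : ∀ i, w i * f (π i) = ∑ a, (if π i = a then w i else 0) * f a := by
        intro i
        rw [Finset.sum_eq_single (π i)]
        · simp
        · intro b _ hb
          rw [if_neg hb.symm, zero_mul]
        · intro h
          exact absurd (Finset.mem_univ _) h
      simp_rw [h2]
      rw [Finset.sum_comm]
      refine Finset.sum_congr rfl fun a _ => ?_
      rw [← Finset.sum_mul, hπ]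
    have h3 : ∀ i, ∑ j, w i * w j * K (π i) (π j) = w i * ∑ b, vw r b * K (π i) b := by
      intro i
      rw [← h1 (fun b => K (π i) b), Finset.mul_sum]
      exact Finset.sum_congr rfl fun j _ => by ring
    simp_rw [h3]
    rw [h1 (fun a => ∑ b, vw r b * K a b)]
    refine Finset.sum_congr rfl fun a _ => ?_
    rw [Finset.mul_sum]
    exact Finset.sum_congr rfl fun b _ => by ring
  refine ⟨fun b b' => G (b.1, π b.2) (b'.1, π b'.2) + (Δ b.2 b'.2 - E (π b.2) (π b'.2)),
    (hG.comap fun b : Y × I => (b.1, π b.2)).add ((hst E hE hE0 hEs).comap Prod.snd),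
    fun p i j => ?_, fun p p' => ?_⟩
  · simp only
    rw [hGE]
    ring
  · have h2 : ∀ i j, w i * w j * (G (p, π i) (p', π j) + (Δ i j - E (π i) (π j))) =
        w i * w j * G (p, π i) (p', π j) + w i * w j * Δ i j - w i * w j * E (π i) (π j) :=
      fun i j => by ring
    simp only [h2, Finset.sum_add_distrib, Finset.sum_sub_distrib]
    rw [hpush (fun a b => G (p, a) (p', b)), hpush E]
    have h3 := hZ p p'
    unfold qf at h3 h0
    rw [h0]
    linarith

end Pool.Agent.N479.SK
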