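import Pool.Agent.N479.SR.Main

set_option autoImplicit false

/-! # A rectangle and two points -/

namespace Pool.Agent.N479.SK

open Finset Pool.Agent.N479.ER

/-- signs -/
def sg (b : Bool) : ℝ := if b then 1 else -1

/-- the weights: the apex `none` and the vertices of the rectangle -/
noncomputable def rw' (ρ σ : ℝ) : Option (Bool × Bool) → ℝ
  | none => 1
  | some (s, t) => (ρ * sg s + σ * sg t) / 4

/-- the five points -/
noncomputable def rp (α β p₁ p₂ h : ℝ) : Option (Bool × Bool) → Fin 3 → ℝ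
  | none => ![p₁, p₂, h]
  | some (s, t) => ![sg s * α, sg t * β, 0]

/-- the first projection -/
def rπ : Option (Bool × Bool) → Fin 3
  | none => 0
  | some (true, _) => 1
  | some (false, _) => 2

/-- the second projection -/
def rπ' : Option (Bool × Bool) → Fin 3
  | none => 0
  | some (_, true) => 1
  | some (_, false) => 2

/-- the squared distances of the five points -/
noncomputable def rD (α β p₁ p₂ h : ℝ) (i j : Option (Bool × Bool)) : ℝ :=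
  sq (rp α β p₁ p₂ h i) (rp α β p₁ p₂ h j)

lemma rD_dec (α β p₁ p₂ h : ℝ) (i j : Option (Bool × Bool)) :
    rD α β p₁ p₂ h i j =
      triD (4 * α ^ 2) ((p₁ - α) ^ 2 + h ^ 2 / 2) ((p₁ + α) ^ 2 + h ^ 2 / 2) (rπ i) (rπ j) +
      triD (4 * β ^ 2) ((p₂ - β) ^ 2 + h ^ 2 / 2) ((p₂ + β) ^ 2 + h ^ 2 / 2) (rπ' i) (rπ' j) := by
  rcases i with _ | ⟨_ | _, _ | _⟩ <;> rcases j with _ | ⟨_ | _, _ | _⟩ <;>
    simp [rD, rp, rπ, rπ', triD, ER.sq, Fin.sum_univ_three, sg] <;> ring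

lemma rw_sum (ρ σ : ℝ) : ∑ i, rw' ρ σ i = 1 := by
  simp only [Fintype.sum_option, Fintype.sum_prod_type, Fintype.sum_bool, rw', sg, if_true,
    Bool.false_eq_true, if_false]
  ring

lemma comb_rp (α β p₁ p₂ h ρ σ : ℝ) :
    comb (rw' ρ σ) (rp α β p₁ p₂ h) = ![p₁ + ρ * α, p₂ + σ * β, h] := by
  funext x
  simp only [comb, Fintype.sum_option, Fintype.sum_prod_type, Fintype.sum_bool, rw', rp, sg,
    if_true, Bool.false_eq_true, if_false]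
  fin_cases x <;> simp <;> ring

/-- the second point is on the sphere -/
lemma rw_qf (α β p₁ p₂ h ρ σ : ℝ) (H : (p₁ + ρ * α) ^ 2 + (p₂ + σ * β) ^ 2 = p₁ ^ 2 + p₂ ^ 2) :
    qf (rw' ρ σ) (rD α β p₁ p₂ h) = 0 := by
  have h1 := sq_comb_pt (rw' ρ σ) (rw_sum ρ σ) (rp α β p₁ p₂ h) 0
  rw [comb_rp] at h1
  have h2 : sq ![p₁ + ρ * α, p₂ + σ * β, h] 0 = p₁ ^ 2 + p₂ ^ 2 + h ^ 2 := by
    simp [ER.sq, Fin.sum_univ_three]
    linarith
  have h3 : ∑ i, rw' ρ σ i * sq (rp α β p₁ p₂ h i) 0 = p₁ ^ 2 + p₂ ^ 2 + h ^ 2 := by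
    simp only [Fintype.sum_option, Fintype.sum_prod_type, Fintype.sum_bool, rw', rp, sg, if_true,
      Bool.false_eq_true, if_false]
    simp [ER.sq, Fin.sum_univ_three]
    ring
  rw [h2, h3] at h1
  have h4 : qf (rw' ρ σ) (rD α β p₁ p₂ h) =
      qf (rw' ρ σ) (fun i j => sq (rp α β p₁ p₂ h i) (rp α β p₁ p₂ h j)) := rfl
  rw [h4]
  linarith

lemma rw_push (ρ σ : ℝ) (a : Fin 3) :
    ∑ i, (if rπ i = a then rw' ρ σ i else 0) = vw ρ a := by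
  simp only [Fintype.sum_option, Fintype.sum_prod_type, Fintype.sum_bool, rw', rπ, sg, if_true,
    Bool.false_eq_true, if_false]
  fin_cases a <;> simp [vw] <;> ring

/-- realized over every finite spherical set -/
theorem rect_over (α β p₁ p₂ h ρ σ : ℝ) (hα : α ≠ 0) (hβ : β ≠ 0) (hh : h ≠ 0) (hρ : ρ ≠ 0)
    (H : (p₁ + ρ * α) ^ 2 + (p₂ + σ * β) ^ 2 = p₁ ^ 2 + p₂ ^ 2) :
    Over (rw' ρ σ) (rD α β p₁ p₂ h) := by
  have hh2 : 0 < h ^ 2 := by positivity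
  have hα2 : 0 < α ^ 2 := by positivity
  have hβ2 : 0 < β ^ 2 := by positivity
  obtain ⟨μ, hμ, hst⟩ := triD_stable (4 * α ^ 2) ((p₁ - α) ^ 2 + h ^ 2 / 2)
    ((p₁ + α) ^ 2 + h ^ 2 / 2) (by positivity) (by nlinarith [mul_pos hα2 hh2])
  have hg : GoodE (triD (4 * β ^ 2) ((p₂ - β) ^ 2 + h ^ 2 / 2) ((p₂ + β) ^ 2 + h ^ 2 / 2)) :=
    triD_good _ _ _ (by positivity) (by nlinarith [mul_pos hβ2 hh2])
  refine over_of _ _ (rw_qf _ _ _ _ _ _ _ H) rπ ρ hρ (rw_push ρ σ) μ hμ fun E hE hE0 hEs => ?_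
  refine (((hst (E 1 2) (E 0 1) (E 0 2) (hE _ _) (hE _ _) (hE _ _)).comap rπ).add
    (hg.comap rπ')).congr fun i j => ?_
  rw [rD_dec]
  have key : ∀ a b : Fin 3, triD (4 * α ^ 2 - E 1 2) ((p₁ - α) ^ 2 + h ^ 2 / 2 - E 0 1)
      ((p₁ + α) ^ 2 + h ^ 2 / 2 - E 0 2) a b =
      triD (4 * α ^ 2) ((p₁ - α) ^ 2 + h ^ 2 / 2) ((p₁ + α) ^ 2 + h ^ 2 / 2) a b - E a b := by
    intro a b
    fin_cases a <;> fin_cases b <;> simp [triD, hE0]
    · rw [hEs 1 0]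
    · rw [hEs 2 0]
    · rw [hEs 2 1]
  rw [key]
  ring

/-- the six points -/
noncomputable def rq (α β p₁ p₂ q₁ q₂ h : ℝ) : Option (Option (Bool × Bool)) → Fin 3 → ℝ
  | none => ![q₁, q₂, h]
  | some i => rp α β p₁ p₂ h i

theorem rect_main {κ : Type} [Finite κ] [Nonempty κ] (α β p₁ p₂ q₁ q₂ h : ℝ) (hα : α ≠ 0)
    (hβ : β ≠ 0) (hh : h ≠ 0) (hρ : q₁ ≠ p₁) (H : q₁ ^ 2 + q₂ ^ 2 = p₁ ^ 2 + p₂ ^ 2) :
    ∃ (ι : Type) (_ : Fintype ι), ∀ c : (ι → ℝ) → κ,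
      ∃ f : Option (Option (Bool × Bool)) → ι → ℝ,
        (∀ i j, sq (f i) (f j) = sq (rq α β p₁ p₂ q₁ q₂ h i) (rq α β p₁ p₂ q₁ q₂ h j)) ∧
          ∀ i j, c (f i) = c (f j) := by
  set ρ := (q₁ - p₁) / α with hρd
  set σ := (q₂ - p₂) / β with hσd
  have e1 : p₁ + ρ * α = q₁ := by rw [hρd]; field_simp; ring
  have e2 : p₂ + σ * β = q₂ := by rw [hσd]; field_simp; ring
  have hρ0 : ρ ≠ 0 := by
    rw [hρd]
    exact div_ne_zero (sub_ne_zero.mpr hρ) hα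
  have H' : (p₁ + ρ * α) ^ 2 + (p₂ + σ * β) ^ 2 = p₁ ^ 2 + p₂ ^ 2 := by rw [e1, e2, H]
  obtain ⟨ι, i, HH⟩ := mainP (κ := κ) (rw' ρ σ) (rw_sum ρ σ) (rD α β p₁ p₂ h)
    (rw_qf _ _ _ _ _ _ _ H') (rect_over α β p₁ p₂ h ρ σ hα hβ hh hρ0 H')
  refine ⟨ι, i, fun c => ?_⟩
  obtain ⟨f, hf, hc⟩ := HH c
  have hq : rq α β p₁ p₂ q₁ q₂ h none = comb (rw' ρ σ) (rp α β p₁ p₂ h) := by
    rw [comb_rp, e1, e2]
    rfl
  have key : ∀ j, sq (comb (rw' ρ σ) f) (f j) =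
      sq (comb (rw' ρ σ) (rp α β p₁ p₂ h)) (rp α β p₁ p₂ h j) := by
    intro j
    rw [sq_comb_pt _ (rw_sum ρ σ), sq_comb_pt _ (rw_sum ρ σ)]
    simp only [hf, rD]
  refine ⟨fun o => o.elim (comb (rw' ρ σ) f) f, ?_, ?_⟩
  · rintro (_ | i) (_ | j)
    · simp [sq_self]
    · rw [hq]
      exact key j
    · rw [hq, sq_comm, sq_comm (rq α β p₁ p₂ q₁ q₂ h (some i))]
      exact key i
    · exact hf i j
  · have hall : ∀ o : Option (Option (Bool × Bool)),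
        c (o.elim (comb (rw' ρ σ) f) f) = c (comb (rw' ρ σ) f) := by
      rintro (_ | i)
      · rfl
      · exact hc i
    intro i j
    rw [hall, hall]

end Pool.Agent.N479.SK
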