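import Pool.Agent.N479.SR.Line

set_option autoImplicit false

/-! # Triangles; affine combinations of points -/

namespace Pool.Agent.N479.SK

open Finset Pool.Agent.N479.ER

/-- the squared distances of a triangle with the vertices `0, 1, 2` -/
def triD (s r₁ r₂ : ℝ) : Fin 3 → Fin 3 → ℝ := ![![0, r₁, r₂], ![r₁, 0, s], ![r₂, s, 0]]

/-- nondegenerate triangles -/
theorem triD_good (s r₁ r₂ : ℝ) (hs : 0 < s) (hH : (s + r₁ - r₂) ^ 2 < 4 * s * r₁) :
    GoodE (triD s r₁ r₂) := by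
  -- room for an equilateral summand
  obtain ⟨g, hg, hg1, hg2⟩ : ∃ g : ℝ, 0 < g ∧ 0 < s - 2 * g ∧
      (s + r₁ - r₂ - 2 * g) ^ 2 < 4 * (s - 2 * g) * (r₁ - 2 * g) := by
    have c1 : Filter.Tendsto (fun g : ℝ => s - 2 * g) (nhds 0) (nhds s) := by
      have : Continuous (fun g : ℝ => s - 2 * g) := by fun_prop
      simpa using this.tendsto 0
    have c2 : Filter.Tendsto (fun g : ℝ => 4 * (s - 2 * g) * (r₁ - 2 * g) -
        (s + r₁ - r₂ - 2 * g) ^ 2) (nhds 0) (nhds (4 * s * r₁ - (s + r₁ - r₂) ^ 2)) := by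
      have : Continuous (fun g : ℝ => 4 * (s - 2 * g) * (r₁ - 2 * g) -
        (s + r₁ - r₂ - 2 * g) ^ 2) := by fun_prop
      simpa using this.tendsto 0
    have e1 := c1.eventually (lt_mem_nhds hs)
    have e2 := c2.eventually (lt_mem_nhds (sub_pos.mpr hH))
    have e3 := ((e1.and e2).filter_mono (nhdsWithin_le_nhds (s := Set.Ioi 0))).and
      self_mem_nhdsWithin
    obtain ⟨g, ⟨h1, h2⟩, h3⟩ := e3.exists
    exact ⟨g, h3, h1, by linarith⟩
  set s' := s - 2 * g with hs'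
  set q := √s' with hq
  have hq0 : 0 < q := Real.sqrt_pos.mpr hg1
  have hqq : q ^ 2 = s' := Real.sq_sqrt hg1.le
  set u := s + r₁ - r₂ - 2 * g with hu
  have hx : (u / (2 * q)) ^ 2 ≤ r₁ - 2 * g := by
    rw [div_pow, div_le_iff₀ (by positivity)]
    nlinarith
  set x := u / (2 * q) with hxd
  have hxq : 2 * x * q = u := by
    rw [hxd]
    field_simp
  set y := √(r₁ - 2 * g - x ^ 2) with hy
  have hyy : y ^ 2 = r₁ - 2 * g - x ^ 2 := Real.sq_sqrt (by linarith)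
  let w : Fin 3 → Fin 2 → ℝ := ![![x, y], ![0, 0], ![q, 0]]
  refine (simplex_goodE w g hg).congr fun b b' => ?_
  fin_cases b <;> fin_cases b' <;> simp [triD, w, ER.sq, Fin.sum_univ_two]
  · rw [hyy]; ring
  · rw [hyy]
    have : (x - q) ^ 2 = x ^ 2 - u + s' := by rw [← hqq, ← hxq]; ring
    rw [this, hs', hu]; ring
  · rw [hyy]; ring
  · rw [hqq, hs']; ring
  · rw [hyy]
    have : (q - x) ^ 2 = x ^ 2 - u + s' := by rw [← hqq, ← hxq]; ring
    rw [this, hs', hu]; ring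
  · rw [hqq, hs']; ring

/-- nondegeneracy of triangles is stable -/
theorem triD_stable (s r₁ r₂ : ℝ) (hs : 0 < s) (hH : (s + r₁ - r₂) ^ 2 < 4 * s * r₁) :
    ∃ μ : ℝ, 0 < μ ∧ ∀ a b c : ℝ, |a| ≤ μ → |b| ≤ μ → |c| ≤ μ →
      GoodE (triD (s - a) (r₁ - b) (r₂ - c)) := by
  have c1 : Filter.Tendsto (fun p : ℝ × ℝ × ℝ => s - p.1) (nhds 0) (nhds s) := by
    have : Continuous (fun p : ℝ × ℝ × ℝ => s - p.1) := by fun_prop
    simpa using this.tendsto 0
  have c2 : Filter.Tendsto (fun p : ℝ × ℝ × ℝ => 4 * (s - p.1) * (r₁ - p.2.1) -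
      ((s - p.1) + (r₁ - p.2.1) - (r₂ - p.2.2)) ^ 2) (nhds 0)
      (nhds (4 * s * r₁ - (s + r₁ - r₂) ^ 2)) := by
    have : Continuous (fun p : ℝ × ℝ × ℝ => 4 * (s - p.1) * (r₁ - p.2.1) -
      ((s - p.1) + (r₁ - p.2.1) - (r₂ - p.2.2)) ^ 2) := by fun_prop
    simpa using this.tendsto 0
  have e := (c1.eventually (lt_mem_nhds hs)).and (c2.eventually (lt_mem_nhds (sub_pos.mpr hH)))
  obtain ⟨ε, hε, H⟩ := Metric.eventually_nhds_iff.mp e
  refine ⟨ε / 2, by positivity, fun a b c ha hb hc => ?_⟩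
  have h1 : dist ((a, b, c) : ℝ × ℝ × ℝ) 0 < ε := by
    rw [Prod.dist_eq, Prod.dist_eq]
    simp only [Prod.fst_zero, Prod.snd_zero, Real.dist_eq, sub_zero]
    refine max_lt ?_ (max_lt ?_ ?_) <;> linarith
  obtain ⟨h2, h3⟩ := H h1
  exact triD_good _ _ _ h2 (by simpa using h3)

/-! ### affine combinations -/

section comb

variable {I : Type} [Fintype I]

/-- the combination of the points `a i` with the weights `w i` -/
def comb {ι : Type} (w : I → ℝ) (a : I → ι → ℝ) : ι → ℝ := fun x => ∑ i, w i * a i x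

/-- the quadratic form of a matrix -/
def qf (w : I → ℝ) (D : I → I → ℝ) : ℝ := ∑ i, ∑ j, w i * w j * D i j

lemma comb_real (w a : I → ℝ) (hw : ∑ i, w i = 1) (b : ℝ) :
    (∑ i, w i * a i - b) ^ 2 = ∑ i, w i * (a i - b) ^ 2
      - 1 / 2 * ∑ i, ∑ j, w i * w j * (a i - a j) ^ 2 := by
  have h1 : ∑ i, ∑ j, w i * w j * (a i - a j) ^ 2 =
      2 * (∑ i, w i * a i ^ 2) - 2 * (∑ i, w i * a i) ^ 2 := by
    have h2 : ∀ i, ∑ j, w i * w j * (a i - a j) ^ 2 =
        w i * a i ^ 2 + w i * (∑ j, w j * a j ^ 2) - 2 * (w i * a i) * ∑ j, w j * a j := by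
      intro i
      have h3 : ∀ j, w i * w j * (a i - a j) ^ 2 = w i * a i ^ 2 * w j + w i * (w j * a j ^ 2)
          - 2 * (w i * a i) * (w j * a j) := fun j => by ring
      simp_rw [h3]
      rw [Finset.sum_sub_distrib, Finset.sum_add_distrib, ← Finset.mul_sum, ← Finset.mul_sum,
        ← Finset.mul_sum, hw, mul_one]
    simp_rw [h2]
    rw [Finset.sum_sub_distrib, Finset.sum_add_distrib, ← Finset.sum_mul, ← Finset.sum_mul, hw,
      ← Finset.mul_sum]
    ring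
  have h4 : ∑ i, w i * (a i - b) ^ 2 = ∑ i, w i * a i ^ 2 - 2 * b * ∑ i, w i * a i + b ^ 2 := by
    have h5 : ∀ i, w i * (a i - b) ^ 2 = w i * a i ^ 2 - 2 * b * (w i * a i) + w i * b ^ 2 :=
      fun i => by ring
    simp_rw [h5]
    rw [Finset.sum_add_distrib, Finset.sum_sub_distrib, ← Finset.mul_sum, ← Finset.sum_mul, hw,
      one_mul]
  rw [h1, h4]
  ring

lemma sq_comb_pt {ι : Type} [Fintype ι] (w : I → ℝ) (hw : ∑ i, w i = 1) (a : I → ι → ℝ)
    (b : ι → ℝ) : sq (comb w a) b = ∑ i, w i * sq (a i) b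
      - 1 / 2 * qf w (fun i j => sq (a i) (a j)) := by
  unfold ER.sq comb qf
  simp_rw [comb_real w _ hw]
  rw [Finset.sum_sub_distrib]
  congr 1
  · rw [Finset.sum_comm]
    exact Finset.sum_congr rfl fun i _ => by rw [Finset.mul_sum]
  · rw [← Finset.mul_sum, Finset.sum_comm]
    congr 1
    refine Finset.sum_congr rfl fun i _ => ?_
    rw [Finset.sum_comm]
    exact Finset.sum_congr rfl fun j _ => by rw [Finset.mul_sum]

lemma sq_comb_comb {ι : Type} [Fintype ι] (w : I → ℝ) (hw : ∑ i, w i = 1) (a b : I → ι → ℝ) :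
    sq (comb w a) (comb w b) = ∑ i, ∑ j, w i * w j * sq (a i) (b j)
      - 1 / 2 * qf w (fun i j => sq (a i) (a j)) - 1 / 2 * qf w (fun i j => sq (b i) (b j)) := by
  rw [sq_comb_pt w hw]
  have h1 : ∀ i, w i * sq (a i) (comb w b) = ∑ j, w i * w j * sq (a i) (b j)
      - w i * (1 / 2 * qf w (fun i j => sq (b i) (b j))) := by
    intro i
    rw [sq_comm, sq_comb_pt w hw, mul_sub, Finset.mul_sum]
    congr 1
    refine Finset.sum_congr rfl fun j _ => ?_
    rw [sq_comm (b j) (a i)]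
    ring
  simp_rw [h1]
  rw [Finset.sum_sub_distrib, ← Finset.sum_mul, hw, one_mul]
  ring

end comb

end Pool.Agent.N479.SK
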